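import Mathlib

set_option autoImplicit false

open Polynomial MeasureTheory intervalIntegral

namespace Pool.Agent.Results.MP_c605fa_an.MaxArcLength

/-- The class `M_n`: real monic polynomials of degree `n` all of whose zeros are real and lie
in `[-1,1]`, repeated zeros allowed. -/
def Mclass (n : ℕ) : Set ℝ[X] :=
  {P | ∃ x : Fin n → ℝ, (∀ i, x i ∈ Set.Icc (-1 : ℝ) 1) ∧ P = ∏ i, (X - C (x i))}

/-- Length of the graph of `P` over `[-1,1]`. -/
noncomputable def arcLength (P : ℝ[X]) : ℝ :=
  ∫ x in (-1 : ℝ)..1, Real.sqrt (1 + (P.derivative.eval x) ^ 2)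

lemma conv_le (u v s : ℝ) (h0 : 0 ≤ s) (h1 : s ≤ 1) :
    Real.sqrt (1 + ((1 - s) * u + s * v) ^ 2) ≤
      (1 - s) * Real.sqrt (1 + u ^ 2) + s * Real.sqrt (1 + v ^ 2) := by
  have hA : 0 ≤ Real.sqrt (1 + u ^ 2) := Real.sqrt_nonneg _
  have hB : 0 ≤ Real.sqrt (1 + v ^ 2) := Real.sqrt_nonneg _
  have hA2 : Real.sqrt (1 + u ^ 2) ^ 2 = 1 + u ^ 2 := Real.sq_sqrt (by positivity)
  have hB2 : Real.sqrt (1 + v ^ 2) ^ 2 = 1 + v ^ 2 := Real.sq_sqrt (by positivity)
  have hAB : 1 + u * v ≤ Real.sqrt (1 + u ^ 2) * Real.sqrt (1 + v ^ 2) := by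
    rw [← Real.sqrt_mul (by positivity)]
    apply Real.le_sqrt_of_sq_le
    nlinarith [sq_nonneg (u - v)]
  apply Real.sqrt_le_iff.mpr
  constructor
  · have := sub_nonneg.mpr h1
    positivity
  · have := mul_nonneg h0 (sub_nonneg.mpr h1)
    nlinarith [mul_le_mul_of_nonneg_left hAB this]

lemma conv_lt (u v s : ℝ) (h0 : 0 < s) (h1 : s < 1) (huv : u ≠ v) :
    Real.sqrt (1 + ((1 - s) * u + s * v) ^ 2) <
      (1 - s) * Real.sqrt (1 + u ^ 2) + s * Real.sqrt (1 + v ^ 2) := by
  have hA : 0 < Real.sqrt (1 + u ^ 2) := Real.sqrt_pos.mpr (by positivity)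
  have hB : 0 < Real.sqrt (1 + v ^ 2) := Real.sqrt_pos.mpr (by positivity)
  have hA2 : Real.sqrt (1 + u ^ 2) ^ 2 = 1 + u ^ 2 := Real.sq_sqrt (by positivity)
  have hB2 : Real.sqrt (1 + v ^ 2) ^ 2 = 1 + v ^ 2 := Real.sq_sqrt (by positivity)
  have hAB : 1 + u * v < Real.sqrt (1 + u ^ 2) * Real.sqrt (1 + v ^ 2) := by
    rw [← Real.sqrt_mul (by positivity)]
    apply Real.lt_sqrt_of_sq_lt
    have : 0 < (u - v) ^ 2 := by
      have := sub_ne_zero.mpr huv
      positivity
    nlinarith
  apply (Real.sqrt_lt' _).mpr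
  · have := mul_pos h0 (sub_pos.mpr h1)
    nlinarith [mul_lt_mul_of_pos_left hAB this]
  · have := sub_pos.mpr h1
    positivity

lemma cont_integrand (P : ℝ[X]) :
    Continuous (fun x : ℝ => Real.sqrt (1 + (P.derivative.eval x) ^ 2)) := by
  fun_prop

lemma arcLength_step (R : ℝ[X]) (t : ℝ) (ht : t ∈ Set.Icc (-1 : ℝ) 1) :
    arcLength ((X - C t) * R) ≤
      (1 - (1 + t) / 2) * arcLength ((X + C 1) * R) + (1 + t) / 2 * arcLength ((X - C 1) * R) := by
  unfold arcLength
  rw [← intervalIntegral.integral_const_mul, ← intervalIntegral.integral_const_mul,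
    ← intervalIntegral.integral_add]
  · apply intervalIntegral.integral_mono_on (by norm_num)
    · exact (cont_integrand _).intervalIntegrable _ _
    · exact (((cont_integrand _).const_mul _).add ((cont_integrand _).const_mul _)).intervalIntegrable _ _
    · intro x _
      have := conv_le (((X + C 1) * R).derivative.eval x) (((X - C 1) * R).derivative.eval x)
        ((1 + t) / 2) (by linarith [ht.1]) (by linarith [ht.2])
      refine le_trans (le_of_eq ?_) this
      congr 2
      simp
      ring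
  · exact ((cont_integrand _).const_mul _).intervalIntegrable _ _
  · exact ((cont_integrand _).const_mul _).intervalIntegrable _ _

lemma arcLength_step_lt (R : ℝ[X]) (t : ℝ) (ht : t ∈ Set.Ioo (-1 : ℝ) 1)
    (hR : R.derivative ≠ 0) :
    arcLength ((X - C t) * R) <
      (1 - (1 + t) / 2) * arcLength ((X + C 1) * R) + (1 + t) / 2 * arcLength ((X - C 1) * R) := by
  -- a point where the derivative of R does not vanish
  obtain ⟨c, hc, hcR⟩ : ∃ c ∈ Set.Icc (-1 : ℝ) 1, R.derivative.eval c ≠ 0 := by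
    by_contra hcon
    push Not at hcon
    apply hR
    apply Polynomial.eq_zero_of_infinite_isRoot
    exact (Set.Icc_infinite (by norm_num : (-1 : ℝ) < 1)).mono (fun x hx => hcon x hx)
  unfold arcLength
  rw [← intervalIntegral.integral_const_mul, ← intervalIntegral.integral_const_mul,
    ← intervalIntegral.integral_add]
  · apply intervalIntegral.integral_lt_integral_of_continuousOn_of_le_of_exists_lt (by norm_num)
    · exact (cont_integrand _).continuousOn
    · exact (((cont_integrand _).const_mul _).add ((cont_integrand _).const_mul _)).continuousOn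
    · intro x _
      have := conv_le (((X + C 1) * R).derivative.eval x) (((X - C 1) * R).derivative.eval x)
        ((1 + t) / 2) (by linarith [ht.1]) (by linarith [ht.2])
      refine le_trans (le_of_eq ?_) this
      congr 2
      simp
      ring
    · refine ⟨c, hc, ?_⟩
      have := conv_lt (((X + C 1) * R).derivative.eval c) (((X - C 1) * R).derivative.eval c)
        ((1 + t) / 2) (by linarith [ht.1]) (by linarith [ht.2]) (by
          simp
          exact ⟨fun h => by linarith, hcR⟩)
      refine lt_of_le_of_lt (le_of_eq ?_) this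
      congr 2
      simp
      ring
  · exact ((cont_integrand _).const_mul _).intervalIntegrable _ _
  · exact ((cont_integrand _).const_mul _).intervalIntegrable _ _

/-- reduction to zeros at the end points -/
lemma reduce (s : Multiset ℝ) : ∀ (a b : ℕ), (∀ t ∈ s, t ∈ Set.Icc (-1 : ℝ) 1) →
    ∃ a' b' : ℕ, a' + b' = a + b + s.card ∧
      arcLength ((s.map (fun t => X - C t)).prod * ((X - C 1) ^ a * (X + C 1) ^ b)) ≤
        arcLength ((X - C 1) ^ a' * (X + C 1) ^ b') := by
  induction s using Multiset.induction_on with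
  | empty =>
    intro a b _
    exact ⟨a, b, by simp, by simp⟩
  | cons t s ih =>
    intro a b h
    have ht := h t (Multiset.mem_cons_self t s)
    have hs : ∀ u ∈ s, u ∈ Set.Icc (-1 : ℝ) 1 := fun u hu => h u (Multiset.mem_cons_of_mem hu)
    have step := arcLength_step ((s.map (fun t => X - C t)).prod * ((X - C 1) ^ a * (X + C 1) ^ b)) t ht
    obtain ⟨a1, b1, h1, h1'⟩ := ih (a + 1) b hs
    obtain ⟨a2, b2, h2, h2'⟩ := ih a (b + 1) hs
    have e1 : (X - C (1 : ℝ)) * ((s.map (fun t => X - C t)).prod * ((X - C 1) ^ a * (X + C 1) ^ b)) =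
        (s.map (fun t => X - C t)).prod * ((X - C 1) ^ (a + 1) * (X + C 1) ^ b) := by ring
    have e2 : (X + C (1 : ℝ)) * ((s.map (fun t => X - C t)).prod * ((X - C 1) ^ a * (X + C 1) ^ b)) =
        (s.map (fun t => X - C t)).prod * ((X - C 1) ^ a * (X + C 1) ^ (b + 1)) := by ring
    rw [e1, e2] at step
    have e3 : ((t ::ₘ s).map (fun t => X - C t)).prod * ((X - C 1) ^ a * (X + C 1) ^ b) =
        (X - C t) * ((s.map (fun t => X - C t)).prod * ((X - C 1) ^ a * (X + C 1) ^ b)) := by
      rw [Multiset.map_cons, Multiset.prod_cons]; ring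
    rw [e3]
    have ht1 := ht.1
    have ht2 := ht.2
    by_cases hcmp : arcLength ((X - C 1) ^ a1 * (X + C 1) ^ b1) ≤ arcLength ((X - C 1) ^ a2 * (X + C 1) ^ b2)
    · refine ⟨a2, b2, by rw [h2, Multiset.card_cons]; ring, ?_⟩
      refine step.trans ?_
      nlinarith
    · push Not at hcmp
      refine ⟨a1, b1, by rw [h1, Multiset.card_cons]; ring, ?_⟩
      refine step.trans ?_
      nlinarith


lemma arcLength_reflect (n : ℕ) :
    arcLength ((X + C 1) ^ n) = arcLength ((X - C 1) ^ n) := by
  unfold arcLength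
  have h := intervalIntegral.integral_comp_neg (a := (-1 : ℝ)) (b := 1)
    (fun x : ℝ => Real.sqrt (1 + (((X - C 1 : ℝ[X]) ^ n).derivative.eval x) ^ 2))
  rw [neg_neg] at h
  rw [← h]
  apply intervalIntegral.integral_congr
  intro x _
  simp only
  congr 2
  simp only [derivative_pow, derivative_add, derivative_sub, derivative_X, derivative_C, eval_mul,
    eval_pow, eval_add, eval_sub, eval_X, eval_C, add_zero, sub_zero, mul_one]
  have : (-x - 1) = -(x + 1) := by ring
  rw [this, neg_pow (x + 1)]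
  rw [mul_pow, mul_pow, mul_pow]
  rw [← pow_mul (-1 : ℝ) (n - 1) 2, mul_comm (n - 1) 2, pow_mul (-1 : ℝ) 2]
  norm_num

lemma lower_bound (n : ℕ) (hn : 1 ≤ n) : (2 : ℝ) ^ n ≤ arcLength ((X - C 1) ^ n) := by
  unfold arcLength
  have hI : ∫ x in (-1 : ℝ)..1, (n : ℝ) * (1 - x) ^ (n - 1) = 2 ^ n := by
    have hd : ∀ x ∈ Set.uIcc (-1 : ℝ) 1, HasDerivAt (fun x : ℝ => -(1 - x) ^ n)
        ((n : ℝ) * (1 - x) ^ (n - 1)) x := by
      intro x _
      have h1 : HasDerivAt (fun x : ℝ => 1 - x) (-1) x := by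
        simpa using (hasDerivAt_id x).const_sub 1
      have h2 := (h1.pow n).neg
      have e : (n : ℝ) * (1 - x) ^ (n - 1) = -((n : ℝ) * (1 - x) ^ (n - 1) * -1) := by ring
      rw [e]
      exact h2
    rw [intervalIntegral.integral_eq_sub_of_hasDerivAt hd]
    · norm_num
      omega
    · exact (by fun_prop : Continuous fun x : ℝ => (n : ℝ) * (1 - x) ^ (n - 1)).intervalIntegrable _ _
  rw [← hI]
  apply intervalIntegral.integral_mono_on (by norm_num)
  · exact (by fun_prop : Continuous fun x : ℝ => (n : ℝ) * (1 - x) ^ (n - 1)).intervalIntegrable _ _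
  · exact (cont_integrand _).intervalIntegrable _ _
  · intro x hx
    apply Real.le_sqrt_of_sq_le
    have : (((X - C 1 : ℝ[X]) ^ n).derivative.eval x) ^ 2 = ((n : ℝ) * (1 - x) ^ (n - 1)) ^ 2 := by
      simp only [derivative_pow, derivative_sub, derivative_X, derivative_C, eval_mul,
        eval_pow, eval_sub, eval_X, eval_C, sub_zero, mul_one]
      have : (x - 1) = -(1 - x) := by ring
      rw [this, neg_pow (1 - x)]
      rw [mul_pow, mul_pow, mul_pow]
      rw [← pow_mul (-1 : ℝ) (n - 1) 2, mul_comm (n - 1) 2, pow_mul (-1 : ℝ) 2]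
      norm_num
    rw [this]
    linarith

lemma mixed_upper (p q : ℕ) :
    arcLength ((X - C 1) ^ (p + 1) * (X + C 1) ^ (q + 1)) ≤ 2 + 2 * 2 ^ (p + q) := by
  set G : ℝ → ℝ := fun x => (1 - x) ^ (p + 1) * (1 + x) ^ (q + 1) with hG
  set G' : ℝ → ℝ := fun x => (1 - x) ^ p * (1 + x) ^ q * ((q + 1) * (1 - x) - (p + 1) * (1 + x))
    with hG'
  have hder : ∀ x : ℝ, HasDerivAt G (G' x) x := by
    intro x
    have h1 : HasDerivAt (fun x : ℝ => 1 - x) (-1) x := by
      simpa using (hasDerivAt_id x).const_sub 1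
    have h2 : HasDerivAt (fun x : ℝ => 1 + x) 1 x := by
      simpa using (hasDerivAt_id x).const_add 1
    have h3 := (h1.pow (p + 1)).mul (h2.pow (q + 1))
    have e : G' x = ((p + 1 : ℕ) : ℝ) * (1 - x) ^ (p + 1 - 1) * -1 * (1 + x) ^ (q + 1) +
        (1 - x) ^ (p + 1) * (((q + 1 : ℕ) : ℝ) * (1 + x) ^ (q + 1 - 1) * 1) := by
      simp only [hG', Nat.add_sub_cancel]
      push_cast
      ring
    rw [e]
    exact h3
  have hcont : Continuous G' := by
    simp only [hG']
    fun_prop
  set xs : ℝ := ((q : ℝ) - p) / (p + q + 2) with hxs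
  have hpq : (0 : ℝ) < p + q + 2 := by positivity
  have hp0 : (0 : ℝ) ≤ p := Nat.cast_nonneg p
  have hq0 : (0 : ℝ) ≤ q := Nat.cast_nonneg q
  have hxs1 : -1 ≤ xs := by
    rw [hxs, le_div_iff₀ hpq]; linarith
  have hxs2 : xs ≤ 1 := by
    rw [hxs, div_le_iff₀ hpq]; linarith
  have hfac : ∀ x : ℝ, (q + 1) * (1 - x) - (p + 1) * (1 + x) = (p + q + 2) * (xs - x) := by
    intro x
    rw [hxs]
    field_simp
    ring
  have habs : ∀ x : ℝ, |((X - C 1 : ℝ[X]) ^ (p + 1) * (X + C 1) ^ (q + 1)).derivative.eval x| = |G' x| := by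
    intro x
    have : ((X - C 1 : ℝ[X]) ^ (p + 1) * (X + C 1) ^ (q + 1)).derivative.eval x
        = (-1) ^ (p + 1) * G' x := by
      simp only [hG', derivative_mul, derivative_pow, derivative_add, derivative_sub, derivative_X,
        derivative_C, eval_mul, eval_pow, eval_add, eval_sub, eval_X, eval_C, add_zero,
        sub_zero, mul_one, Nat.add_sub_cancel]
      have : (x - 1) = -(1 - x) := by ring
      rw [this, neg_pow (1 - x) p, neg_pow (1 - x) (p + 1)]
      push_cast
      ring
    rw [this, abs_mul, abs_pow, abs_neg, abs_one, one_pow, one_mul]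
  have hI1 : ∫ x in (-1 : ℝ)..xs, |G' x| = G xs := by
    have : ∫ x in (-1 : ℝ)..xs, |G' x| = ∫ x in (-1 : ℝ)..xs, G' x := by
      apply intervalIntegral.integral_congr
      intro x hx
      rw [Set.uIcc_of_le hxs1] at hx
      simp only
      apply abs_of_nonneg
      simp only [hG', hfac]
      have h1 : 0 ≤ 1 - x := by linarith [hx.2]
      have h2 : 0 ≤ 1 + x := by linarith [hx.1]
      have h3 : 0 ≤ xs - x := by linarith [hx.2]
      positivity
    rw [this, intervalIntegral.integral_eq_sub_of_hasDerivAt (fun x _ => hder x)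
      (hcont.intervalIntegrable _ _)]
    simp [hG]
  have hI2 : ∫ x in xs..(1 : ℝ), |G' x| = G xs := by
    have : ∫ x in xs..(1 : ℝ), |G' x| = ∫ x in xs..(1 : ℝ), -G' x := by
      apply intervalIntegral.integral_congr
      intro x hx
      rw [Set.uIcc_of_le hxs2] at hx
      simp only
      apply abs_of_nonpos
      simp only [hG', hfac]
      have h1 : 0 ≤ 1 - x := by linarith [hx.2]
      have h2 : 0 ≤ 1 + x := by linarith [hx.1]
      have h3 : 0 ≤ x - xs := by linarith [hx.1]
      have h4 : 0 ≤ (1 - x) ^ p * (1 + x) ^ q * ((p + q + 2) * (x - xs)) := by positivity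
      nlinarith
    rw [this, intervalIntegral.integral_neg,
      intervalIntegral.integral_eq_sub_of_hasDerivAt (fun x _ => hder x)
      (hcont.intervalIntegrable _ _)]
    simp [hG]
  have hGle : G xs ≤ 2 ^ (p + q) := by
    have h1 : 0 ≤ 1 - xs := by linarith
    have h2 : 0 ≤ 1 + xs := by linarith
    have e : G xs = (1 - xs ^ 2) * ((1 - xs) ^ p * (1 + xs) ^ q) := by
      simp only [hG]; ring
    rw [e, pow_add]
    have a1 : (1 - xs) ^ p ≤ 2 ^ p := pow_le_pow_left₀ h1 (by linarith) p
    have a2 : (1 + xs) ^ q ≤ 2 ^ q := pow_le_pow_left₀ h2 (by linarith) q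
    have a3 : 1 - xs ^ 2 ≤ 1 := by nlinarith [sq_nonneg xs]
    have a4 : 0 ≤ 1 - xs ^ 2 := by nlinarith
    calc (1 - xs ^ 2) * ((1 - xs) ^ p * (1 + xs) ^ q) ≤ 1 * (2 ^ p * 2 ^ q) := by
          apply mul_le_mul a3 _ (by positivity) (by norm_num)
          exact mul_le_mul a1 a2 (by positivity) (by positivity)
      _ = 2 ^ p * 2 ^ q := by ring
  have htot : ∫ x in (-1 : ℝ)..1, |G' x| = 2 * G xs := by
    rw [← intervalIntegral.integral_add_adjacent_intervals (a := (-1 : ℝ)) (b := xs) (c := 1)
      (hcont.abs.intervalIntegrable _ _) (hcont.abs.intervalIntegrable _ _), hI1, hI2]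
    ring
  have hle : arcLength ((X - C 1) ^ (p + 1) * (X + C 1) ^ (q + 1)) ≤
      ∫ x in (-1 : ℝ)..1, (1 + |G' x|) := by
    unfold arcLength
    apply intervalIntegral.integral_mono_on (by norm_num)
    · exact (cont_integrand _).intervalIntegrable _ _
    · exact (continuous_const.add hcont.abs).intervalIntegrable _ _
    · intro x _
      rw [← habs x]
      apply Real.sqrt_le_iff.mpr
      constructor
      · positivity
      · rw [← sq_abs (eval x _)]
        nlinarith [abs_nonneg (((X - C 1 : ℝ[X]) ^ (p + 1) * (X + C 1) ^ (q + 1)).derivative.eval x)]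
  refine hle.trans ?_
  rw [intervalIntegral.integral_add (by simp) (hcont.abs.intervalIntegrable _ _), htot]
  simp
  linarith

lemma mixed_two : arcLength ((X - C 1) ^ 1 * (X + C 1) ^ 1) < arcLength ((X - C 1) ^ 2) := by
  have h5 : (0 : ℝ) < Real.sqrt 5 := Real.sqrt_pos.mpr (by norm_num)
  have h5s : Real.sqrt 5 ^ 2 = 5 := Real.sq_sqrt (by norm_num)
  have hup : arcLength ((X - C 1) ^ 1 * (X + C 1) ^ 1) < 2 * Real.sqrt 5 := by
    have hc : ∫ _x in (-1 : ℝ)..1, Real.sqrt 5 = 2 * Real.sqrt 5 := by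
      simp; ring
    rw [← hc]
    unfold arcLength
    apply intervalIntegral.integral_lt_integral_of_continuousOn_of_le_of_exists_lt (by norm_num)
    · exact (cont_integrand _).continuousOn
    · exact continuousOn_const
    · intro x hx
      apply Real.sqrt_le_sqrt
      simp
      nlinarith [hx.1, hx.2]
    · refine ⟨0, by norm_num, ?_⟩
      apply Real.sqrt_lt_sqrt
      · positivity
      · simp
  have hlo : 2 * Real.sqrt 5 ≤ arcLength ((X - C 1) ^ 2) := by
    have hc : ∫ x in (-1 : ℝ)..1, ((1 - 4 * (x - 1)) / Real.sqrt 5) = 2 * Real.sqrt 5 := by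
      have hd : ∀ x ∈ Set.uIcc (-1 : ℝ) 1, HasDerivAt (fun x : ℝ => (x - 2 * (x - 1) ^ 2) / Real.sqrt 5)
          ((1 - 4 * (x - 1)) / Real.sqrt 5) x := by
        intro x _
        have h1 : HasDerivAt (fun x : ℝ => x - 1) 1 x := by
          simpa using (hasDerivAt_id x).sub_const 1
        have h2 := ((hasDerivAt_id x).sub ((h1.pow 2).const_mul 2)).div_const (Real.sqrt 5)
        have e : (1 - 4 * (x - 1)) / Real.sqrt 5 =
            (1 - 2 * (((2 : ℕ) : ℝ) * (x - 1) ^ (2 - 1) * 1)) / Real.sqrt 5 := by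
          norm_num
          ring
        rw [e]
        exact h2
      rw [intervalIntegral.integral_eq_sub_of_hasDerivAt hd]
      · rw [div_sub_div_same]
        rw [div_eq_iff h5.ne']
        nlinarith
      · exact (by fun_prop : Continuous fun x : ℝ => (1 - 4 * (x - 1)) / Real.sqrt 5).intervalIntegrable _ _
    rw [← hc]
    unfold arcLength
    apply intervalIntegral.integral_mono_on (by norm_num)
    · exact (by fun_prop : Continuous fun x : ℝ => (1 - 4 * (x - 1)) / Real.sqrt 5).intervalIntegrable _ _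
    · exact (cont_integrand _).intervalIntegrable _ _
    · intro x _
      apply Real.le_sqrt_of_sq_le
      rw [div_pow, h5s]
      simp only [derivative_pow, derivative_sub, derivative_X, derivative_C, eval_mul,
        eval_pow, eval_sub, eval_X, eval_C, sub_zero, mul_one]
      rw [div_le_iff₀ (by norm_num)]
      norm_num
      nlinarith [sq_nonneg (x - 1), sq_nonneg (x)]
  linarith

lemma mixed_lt (a b : ℕ) (ha : 1 ≤ a) (hb : 1 ≤ b) :
    arcLength ((X - C 1) ^ a * (X + C 1) ^ b) < arcLength ((X - C 1) ^ (a + b)) := by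
  obtain ⟨p, rfl⟩ : ∃ p, a = p + 1 := ⟨a - 1, by omega⟩
  obtain ⟨q, rfl⟩ : ∃ q, b = q + 1 := ⟨b - 1, by omega⟩
  by_cases h : p + q = 0
  · obtain ⟨rfl, rfl⟩ : p = 0 ∧ q = 0 := by omega
    exact mixed_two
  · refine lt_of_le_of_lt (mixed_upper p q) (lt_of_lt_of_le ?_ (lower_bound _ (by omega)))
    obtain ⟨m, hm⟩ : ∃ m, p + q = m + 1 := ⟨p + q - 1, by omega⟩
    have e : p + 1 + (q + 1) = m + 3 := by omega
    rw [hm, e]
    have : (1 : ℝ) ≤ 2 ^ m := one_le_pow₀ (by norm_num)
    rw [pow_add, pow_add]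
    norm_num
    linarith

lemma endpoint_le (a b : ℕ) :
    arcLength ((X - C 1) ^ a * (X + C 1) ^ b) ≤ arcLength ((X - C 1) ^ (a + b)) := by
  rcases Nat.eq_zero_or_pos a with rfl | ha
  · rw [pow_zero, one_mul, zero_add, arcLength_reflect]
  · rcases Nat.eq_zero_or_pos b with rfl | hb
    · simp
    · exact (mixed_lt a b ha hb).le

lemma multiset_le (s : Multiset ℝ) (hs : ∀ t ∈ s, t ∈ Set.Icc (-1 : ℝ) 1) (a b : ℕ) :
    arcLength ((s.map (fun t => X - C t)).prod * ((X - C 1) ^ a * (X + C 1) ^ b)) ≤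
      arcLength ((X - C 1) ^ (a + b + s.card)) := by
  obtain ⟨a', b', h1, h2⟩ := reduce s a b hs
  rw [← h1]
  exact h2.trans (endpoint_le a' b')

/-- all zeros at the end points: shape of the polynomial -/
lemma endpoint_shape (s : Multiset ℝ) (hs : ∀ t ∈ s, t = -1 ∨ t = 1) :
    ∃ a b : ℕ, a + b = s.card ∧
      (s.map (fun t => (X - C t : ℝ[X]))).prod = (X - C 1) ^ a * (X + C 1) ^ b := by
  induction s using Multiset.induction_on with
  | empty => exact ⟨0, 0, by simp, by simp⟩
  | cons t s ih =>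
    obtain ⟨a, b, h1, h2⟩ := ih (fun u hu => hs u (Multiset.mem_cons_of_mem hu))
    rcases hs t (Multiset.mem_cons_self t s) with h | h
    · refine ⟨a, b + 1, by rw [Multiset.card_cons]; omega, ?_⟩
      rw [Multiset.map_cons, Multiset.prod_cons, h2, h]
      simp
      ring
    · refine ⟨a + 1, b, by rw [Multiset.card_cons]; omega, ?_⟩
      rw [Multiset.map_cons, Multiset.prod_cons, h2, h]
      ring

lemma monic_prod (s : Multiset ℝ) : ((s.map (fun t => (X - C t : ℝ[X]))).prod).natDegree = s.card := by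
  exact Polynomial.natDegree_multiset_prod_X_sub_C_eq_card s

/-- **Answer to Q2.** For every `n` the polynomial `(X - 1)^n` belongs to `M_n` and has maximal
arc length in `M_n`; for `n ≥ 2` the maximisers are exactly `(X - 1)^n` and `(X + 1)^n`. -/
theorem result (n : ℕ) :
    (X - C 1) ^ n ∈ Mclass n ∧
    (∀ P ∈ Mclass n, arcLength P ≤ arcLength ((X - C 1) ^ n)) ∧
    (2 ≤ n → ∀ P ∈ Mclass n, (arcLength P = arcLength ((X - C 1) ^ n) ↔
      P = (X - C 1) ^ n ∨ P = (X + C 1) ^ n)) := by
  have key : ∀ P ∈ Mclass n, ∃ s : Multiset ℝ, s.card = n ∧ (∀ t ∈ s, t ∈ Set.Icc (-1 : ℝ) 1) ∧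
      P = (s.map (fun t => X - C t)).prod := by
    rintro P ⟨x, hx, rfl⟩
    refine ⟨Finset.univ.val.map x, by simp, ?_, ?_⟩
    · intro t ht
      obtain ⟨i, _, rfl⟩ := Multiset.mem_map.mp ht
      exact hx i
    · rw [Multiset.map_map]
      rfl
  refine ⟨⟨fun _ => 1, fun _ => by norm_num, by simp⟩, ?_, ?_⟩
  · intro P hP
    obtain ⟨s, hs, hs1, rfl⟩ := key P hP
    have := multiset_le s hs1 0 0
    simpa [hs] using this
  · intro hn2 P hP
    obtain ⟨s, hs, hs1, rfl⟩ := key P hP
    constructor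
    · intro heq
      -- all zeros are at the end points
      have hend : ∀ t ∈ s, t = -1 ∨ t = 1 := by
        by_contra hcon
        push Not at hcon
        obtain ⟨t, hts, ht1, ht2⟩ := hcon
        obtain ⟨s', rfl⟩ := Multiset.exists_cons_of_mem hts
        have hs' : ∀ u ∈ s', u ∈ Set.Icc (-1 : ℝ) 1 := fun u hu => hs1 u (Multiset.mem_cons_of_mem hu)
        have hcard : s'.card = n - 1 := by
          rw [Multiset.card_cons] at hs; omega
        have htI := hs1 t hts
        have hto : t ∈ Set.Ioo (-1 : ℝ) 1 :=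
          ⟨lt_of_le_of_ne htI.1 (Ne.symm ht1), lt_of_le_of_ne htI.2 ht2⟩
        have hR : ((s'.map (fun t => (X - C t : ℝ[X]))).prod).derivative ≠ 0 := by
          intro h0
          have := Polynomial.derivative_eq_zero.mp h0
          rw [monic_prod, hcard] at this
          omega
        have hlt := arcLength_step_lt _ t hto hR
        have b1 := multiset_le s' hs' 1 0
        have b2 := multiset_le s' hs' 0 1
        have e0 : 1 + 0 + s'.card = n := by omega
        have e0' : 0 + 1 + s'.card = n := by omega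
        rw [e0] at b1
        rw [e0'] at b2
        rw [pow_one, pow_zero, mul_one, mul_comm] at b1
        rw [pow_one, pow_zero, one_mul, mul_comm] at b2
        rw [Multiset.map_cons, Multiset.prod_cons] at heq
        have h1 := hto.1
        have h2 := hto.2
        nlinarith
      obtain ⟨a, b, hab, hshape⟩ := endpoint_shape s hend
      rw [hshape] at heq ⊢
      rw [hs] at hab
      rcases Nat.eq_zero_or_pos a with rfl | ha
      · right
        rw [← hab]; simp
      · rcases Nat.eq_zero_or_pos b with rfl | hb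
        · left
          rw [← hab]; simp
        · exfalso
          have := mixed_lt a b ha hb
          rw [hab] at this
          exact this.ne heq
    · rintro (h | h)
      · rw [h]
      · rw [h, arcLength_reflect]

end Pool.Agent.Results.MP_c605fa_an.MaxArcLength
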